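import Mathlib
import Pool.Agent.H14.AccMatch

namespace Pool.Agent.Results.MP_77df55_co.Counter

/-- Bipartite graphs on `A ∪ B` with `A = B = Fin n` are relations between the two sides; a perfect
matching of `G` is a bijection `M` with `a (M a)` an edge of `G` for all `a`. -/
theorem result :
    ∀ n₀ : ℕ, ∃ n : ℕ, n₀ ≤ n ∧ ∃ G H : Fin n → Fin n → Prop,
      (∀ a, {b | G a b}.ncard = 3) ∧ (∀ b, {a | G a b}.ncard = 3) ∧
      (∀ a, {b | H a b}.ncard = 1) ∧ (∀ b, {a | H a b}.ncard = 1) ∧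
      (∀ a b, ¬ (G a b ∧ H a b)) ∧
      ∀ M : Fin n ≃ Fin n, (∀ a, G a (M a)) →
        ∃ a a', a ≠ a' ∧ H a (M a') ∧ H a' (M a) :=
  fun n₀ => ⟨16 + n₀ * 4, by omega, Pool.Agent.H14.AccMatch.main n₀⟩

end Pool.Agent.Results.MP_77df55_co.Counter
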